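import Pool.Agent.Helper6.ZA.WMain
import Pool.Agent.Helper6.ZA.Solv

/-!
The integers as an amalgamation base of a variety of `ℓ`-groups.

If `ℤ` is an amalgamation base of the variety defined by the set `E` of identities, then the
variety is the variety of all `ℓ`-groups, or the variety of all normal-valued `ℓ`-groups, or it
consists of abelian `ℓ`-groups, or it consists of representable `ℓ`-groups, is not solvable, and
satisfies an identity `[s(x̄), t(ȳ)] = e` in disjoint sets of variables only if it satisfies
`s = e` or `t = e`.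
-/

set_option autoImplicit false

namespace Pool.Agent.Results.MP_a2e0a9_al.NonRepresentable

open Pool.Agent.Helper6.ZA

theorem result (E : Set (LTerm × LTerm)) (hZ : IsAmalgBase E (Multiplicative ℤ)) :
    (∀ (G : Type) [Group G] [Lattice G], IsLGroup G → InVar E G) ∨
    (∀ (G : Type) [Group G] [Lattice G], IsLGroup G → (InVar E G ↔ IsNormalValued G)) ∨
    (∀ (G : Type) [Group G] [Lattice G], InVar E G → ∀ a b : G, a * b = b * a) ∨
    ((∀ (G : Type) [Group G] [Lattice G], InVar E G → IsRepresentable G) ∧
     (∀ n : ℕ, ∃ (G : Type) (_ : Group G) (_ : Lattice G), InVar E G ∧ derivedSeries G n ≠ ⊥) ∧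
     (∀ s t : LTerm,
       (∀ (G : Type) [Group G] [Lattice G], InVar E G → ∀ v w : ℕ → G,
          s.eval v * t.eval w = t.eval w * s.eval v) →
       (∀ (G : Type) [Group G] [Lattice G], InVar E G → ∀ v : ℕ → G, s.eval v = 1) ∨
       (∀ (G : Type) [Group G] [Lattice G], InVar E G → ∀ v : ℕ → G, t.eval v = 1))) := by
  by_cases hrep : ∃ (G : Type) (_ : Group G) (_ : Lattice G), InVar E G ∧ ¬ IsRepresentable G
  · obtain ⟨G, _, _, hG, h⟩ := hrep
    rcases nonrep_main hZ hG h with h1 | h1
    · exact Or.inr (Or.inl h1)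
    · exact Or.inl h1
  · by_cases hab : ∀ (G : Type) [Group G] [Lattice G], InVar E G → ∀ a b : G, a * b = b * a
    · exact Or.inr (Or.inr (Or.inl hab))
    · refine Or.inr (Or.inr (Or.inr ⟨?_, ?_, ?_⟩))
      · intro G _ _ hG
        by_contra h
        exact hrep ⟨G, inferInstance, inferInstance, hG, h⟩
      · intro n
        by_contra h
        apply hab
        refine solv_law hZ ⟨n, fun G _ _ hG => ?_⟩
        by_contra h2
        exact h ⟨G, inferInstance, inferInstance, hG, h2⟩
      · intro s t hlaw
        by_contra hcon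
        push Not at hcon
        obtain ⟨⟨G, i1, i2, hG, v, hv⟩, H, j1, j2, hH, w, hw⟩ := hcon
        exact hab (comm_law hZ s t hlaw ⟨G, i1, i2, hG, v, hv⟩ ⟨H, j1, j2, hH, w, hw⟩)

end Pool.Agent.Results.MP_a2e0a9_al.NonRepresentable
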